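import Pool.Agent.Y716.D.ZeroCycle
import Pool.Agent.Q59.ZC.Line

/-!
# Zero-cycles of degree one on the families of sections of 100% of the Fano hypersurfaces

Let `2 ≤ d ≤ n`, `n ≥ 3`, let `f = 0` be a hypersurface of degree `d` in `ℙⁿ` and let
`g(x; z) = ∑ G_i(x) z_0^{m-i} z_1^i` be a form of bidegree `(e, m)` on `ℙⁿ × ℙ¹`, such that `G_0` has
a linear factor (this is no condition for `e = 1`) and `m` is prime to `d`. The variety
`Y : f(x) = g(x; z) = 0` is a covering of degree `m` of `f = 0`, with canonical class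
`(d + e - n - 1, m - 2)`: a K3 surface for `(n, d, e, m) = (3, 3, 1, 2)`, an elliptic surface for
`(3, 3, 1, m)`, of general type if `d + e > n + 1` and `m > 2`.

For `100%` of the smooth `f` with points everywhere locally ALL the varieties `Y` have zero-cycles of
degree one. If `d = 3` then local zero-cycles of degree one on one of the `Y` suffice.
-/

set_option autoImplicit false

namespace Pool.Agent.Results.MP_1ad228_nt.FamiliesOfSections

open Filter Topology

/-- The forms of degree `d` in `n + 1` variables whose coefficients are integers of absolute value at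
most `H`. -/
def Forms (n d H : ℕ) : Set (MvPolynomial (Fin (n + 1)) ℤ) :=
  {f | f.IsHomogeneous d ∧ ∀ m, |f.coeff m| ≤ (H : ℤ)}

/-- The hypersurface `f = 0` in `ℙⁿ` is smooth: there is no point over a field of characteristic
zero at which `f` and all its partial derivatives vanish. -/
def Smooth {n : ℕ} (f : MvPolynomial (Fin (n + 1)) ℤ) : Prop :=
  ∀ (K : Type) [Field K] [CharZero K] (x : Fin (n + 1) → K), x ≠ 0 → MvPolynomial.aeval x f = 0 →
    ∃ i, MvPolynomial.aeval x (MvPolynomial.pderiv i f) ≠ 0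

/-- The hypersurface `f = 0` has real points and `p`-adic points for all `p`. -/
def LocallySoluble {n : ℕ} (f : MvPolynomial (Fin (n + 1)) ℤ) : Prop :=
  (∃ x : Fin (n + 1) → ℝ, x ≠ 0 ∧ MvPolynomial.aeval x f = 0) ∧
    ∀ (p : ℕ) [Fact p.Prime], ∃ x : Fin (n + 1) → ℚ_[p], x ≠ 0 ∧ MvPolynomial.aeval x f = 0

/-- A form `∑ G_i(x) z_0^{m-i} z_1^i` of bidegree `(e, m)` with integral coefficients on `ℙⁿ × ℙ¹`,
such that `G_0` is divisible by a nonzero linear form. (This holds if `e = 1`, or if `G_0 = 0`.) -/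
structure Family (n : ℕ) where
  /-- the degree in the coordinates of `ℙⁿ` -/
  e : ℕ
  /-- the degree in the coordinates of `ℙ¹` -/
  m : ℕ
  /-- the coefficients -/
  G : Fin (m + 1) → MvPolynomial (Fin (n + 1)) ℤ
  hom : ∀ i, (G i).IsHomogeneous e
  linearFactor : ∃ c : Fin (n + 1) → ℤ, c ≠ 0 ∧
    (∑ i, MvPolynomial.C (c i) * MvPolynomial.X i) ∣ G 0

/-- The variety `Y : f(x) = 0, ∑ G_i(x) z_0^{m-i} z_1^i = 0` in `ℙⁿ × ℙ¹` has a point over the
field `L`. -/
def HasPoint {n : ℕ} (f : MvPolynomial (Fin (n + 1)) ℤ) (F : Family n) (L : Type)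
    [Field L] : Prop :=
  ∃ (x : Fin (n + 1) → L) (z : Fin 2 → L), x ≠ 0 ∧ z ≠ 0 ∧ MvPolynomial.aeval x f = 0 ∧
    ∑ i : Fin (F.m + 1), MvPolynomial.aeval x (F.G i) * z 0 ^ (F.m - (i : ℕ)) * z 1 ^ (i : ℕ) = 0

/-- The variety `Y` has a zero-cycle of degree one over the field `K`: there are finitely many finite
extensions `L i` of `K` over which it has a point, and integers `m i` with `∑ m i * [L i : K] = 1`. (A
point over `L i` is a closed point together with an embedding of its residue field in `L i`, so this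
says that the degrees of the closed points have greatest common divisor one.) -/
def HasZeroCycleOfDegreeOne {n : ℕ} (f : MvPolynomial (Fin (n + 1)) ℤ) (F : Family n) (K : Type)
    [Field K] : Prop :=
  ∃ (t : ℕ) (L : Fin t → Type) (_ : ∀ i, Field (L i)) (_ : ∀ i, Algebra K (L i)) (m : Fin t → ℤ),
    (∀ i, FiniteDimensional K (L i)) ∧ (∀ i, HasPoint f F (L i)) ∧
    ∑ i, m i * (Module.finrank K (L i) : ℤ) = 1

/-- a point of the hypersurface gives a zero-cycle of degree one -/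
theorem zc_of_point {n d : ℕ} (hn : 3 ≤ n) {f : MvPolynomial (Fin (n + 1)) ℤ}
    (hf : f.IsHomogeneous d) (F : Family n) (hm : Nat.Coprime F.m d) (K : Type) [Field K]
    [CharZero K] (h : ∃ x : Fin (n + 1) → K, x ≠ 0 ∧ MvPolynomial.aeval x f = 0) :
    HasZeroCycleOfDegreeOne f F K := by
  obtain ⟨x, hx0, hx⟩ := h
  obtain ⟨c, hc, hG⟩ := F.linearFactor
  have h1 := Pool.Agent.Q59.ZC.cyc_fibre (K := K) (L := K) f F.G x hx0 hx
  rw [Module.finrank_self, Nat.cast_one, mul_one] at h1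
  have h2 := Pool.Agent.Q59.ZC.cyc_section (by omega) hf F.G hc hG K
  exact Pool.Agent.Q59.ZC.zc_of_cyc (h1.one h2 hm)

theorem ncard_one {n d : ℕ} (P : MvPolynomial (Fin (n + 1)) ℤ → Prop)
    (Q : (Fin 1 → MvPolynomial (Fin (n + 1)) ℤ) → Prop) (h : ∀ f, Q (fun _ => f) ↔ P f) (H : ℕ) :
    ({f | f ∈ Forms n (d + 2) H ∧ P f} : Set _).ncard =
    ({f : Fin 1 → MvPolynomial (Fin (n + 1)) ℤ | (∀ j, (f j).IsHomogeneous ((fun _ => d) j + 2) ∧
      ∀ m, |(f j).coeff m| ≤ (H : ℤ)) ∧ Q f} : Set _).ncard := by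
  have h1 : ({f : Fin 1 → MvPolynomial (Fin (n + 1)) ℤ | (∀ j, (f j).IsHomogeneous (d + 2) ∧
      ∀ m, |(f j).coeff m| ≤ (H : ℤ)) ∧ Q f} : Set _) =
      (fun (f : MvPolynomial (Fin (n + 1)) ℤ) (_ : Fin 1) => f) ''
        {f | f ∈ Forms n (d + 2) H ∧ P f} := by
    ext g
    constructor
    · intro hg
      refine ⟨g 0, ⟨hg.1 0, (h (g 0)).mp ?_⟩, ?_⟩
      · have : (fun _ : Fin 1 => g 0) = g := funext fun j => by rw [Subsingleton.elim j 0]
        rw [this]; exact hg.2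
      · exact funext fun j => by rw [Subsingleton.elim j 0]
    · rintro ⟨f, hf, rfl⟩
      exact ⟨fun _ => hf.1, (h f).mpr hf.2⟩
  rw [h1, Set.ncard_image_of_injective]
  intro f g hfg
  exact congrFun hfg 0

theorem smooth_iff {n : ℕ} (f : MvPolynomial (Fin (n + 1)) ℤ) :
    Pool.Agent.Y697.C13.SmoothS (fun _ : Fin 1 => f) ↔ Smooth f := by
  constructor
  · intro hf K _ _ x hx h0
    obtain ⟨i, hi⟩ := hf K x (fun _ => 1) hx (fun h => one_ne_zero (congrFun h 0)) (fun _ => h0)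
    exact ⟨i, fun h1 => hi (by simp [h1])⟩
  · intro hf K _ _ x l hx hl h0
    obtain ⟨i, hi⟩ := hf K x hx (h0 0)
    have hl0 : l 0 ≠ 0 := fun h1 => hl (funext fun j => by rw [Subsingleton.elim j 0, h1]; rfl)
    exact ⟨i, by simpa using ⟨hl0, hi⟩⟩

theorem els_iff {n : ℕ} (f : MvPolynomial (Fin (n + 1)) ℤ) :
    Pool.Agent.Y716.C.ElsS (fun _ : Fin 1 => f) ↔ LocallySoluble f := by
  unfold Pool.Agent.Y716.C.ElsS LocallySoluble
  simp only [forall_const]

/-- **Zero-cycles of degree one on families of sections of 100% of the Fano hypersurfaces.**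
(1) A positive proportion of the forms `f` of degree `d`, `2 ≤ d ≤ n`, is smooth and locally soluble.
(2) For 100% of these `f` all the varieties `Y` in `ℙⁿ × ℙ¹` with `m` prime to `d` have zero-cycles of
degree one. (3) For `d = 3` and every `f`, such a variety `Y` has zero-cycles of degree one over the
real numbers and over all the `p`-adic fields if and only if `f` is locally soluble. -/
theorem result (n d : ℕ) (hn : 3 ≤ n) (hd : 2 ≤ d) (hdn : d ≤ n) :
    (∃ c : ℝ, 0 < c ∧ ∀ᶠ H : ℕ in atTop, c * ((Forms n d H).ncard : ℝ) ≤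
      (({f | f ∈ Forms n d H ∧ Smooth f ∧ LocallySoluble f} : Set _).ncard : ℝ)) ∧
    Tendsto (fun H : ℕ =>
      (({f | f ∈ Forms n d H ∧ Smooth f ∧ LocallySoluble f ∧
        ∀ F : Family n, Nat.Coprime F.m d → HasZeroCycleOfDegreeOne f F ℚ} : Set _).ncard : ℝ) /
      (({f | f ∈ Forms n d H ∧ Smooth f ∧ LocallySoluble f} : Set _).ncard : ℝ)) atTop (𝓝 1) ∧
    (d = 3 → ∀ f : MvPolynomial (Fin (n + 1)) ℤ, f.IsHomogeneous d →
      ∀ F : Family n, Nat.Coprime F.m d →
        ((HasZeroCycleOfDegreeOne f F ℝ ∧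
          ∀ (p : ℕ) [Fact p.Prime], HasZeroCycleOfDegreeOne f F ℚ_[p]) ↔ LocallySoluble f)) := by
  classical
  obtain ⟨e, rfl⟩ : ∃ e, d = e + 2 := ⟨d - 2, by omega⟩
  have hcard : (1 : ℕ) + 3 ≤ Fintype.card (Fin (n + 1)) := by rw [Fintype.card_fin]; omega
  have hdeg : ∑ j : Fin 1, ((fun _ => e) j + 2) + 1 ≤ Fintype.card (Fin (n + 1)) := by
    rw [Fintype.card_fin]; simp; omega
  have hpos := Pool.Agent.Y716.D.pos_all (Fin (n + 1)) (s := 1) le_rfl hcard (fun _ => e) hdeg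
  have hhp := Pool.Agent.Y716.D.hp_smooth_all (Fin (n + 1)) (s := 1) le_rfl hcard (fun _ => e) hdeg
  have hT : ∀ (P : MvPolynomial (Fin (n + 1)) ℤ → Prop)
      (Q : (Fin 1 → MvPolynomial (Fin (n + 1)) ℤ) → Prop) (_ : ∀ f, Q (fun _ => f) ↔ P f) (H : ℕ),
      ({f | f ∈ Forms n (e + 2) H ∧ P f} : Set _).ncard =
        ((Pool.Agent.Y716.C.sysZ (Fin (n + 1)) (fun _ : Fin 1 => e) (H : ℝ)).filter Q).card := by
    intro P Q h H
    rw [ncard_one P Q h H, Pool.Agent.Y487.C8.ncard_eq_filterS]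
  refine ⟨?_, ?_, ?_⟩
  · obtain ⟨c, hc, H₀, h⟩ := hpos
    obtain ⟨H₁, h1⟩ := Pool.Agent.Y697.C13.smooth_dense (Fin (n + 1)) (fun _ : Fin 1 => e) (c / 2)
      (by positivity)
    refine ⟨c / 2, by positivity, ?_⟩
    filter_upwards [eventually_ge_atTop ⌈H₀⌉₊, eventually_ge_atTop ⌈H₁⌉₊] with H h2 h3
    have h4 := h (H : ℝ) ((Nat.le_ceil H₀).trans (by exact_mod_cast h2))
    have h5 := h1 (H : ℝ) ((Nat.le_ceil H₁).trans (by exact_mod_cast h3))
    have h6 : ((Forms n (e + 2) H).ncard : ℝ) =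
        ((Pool.Agent.Y716.C.sysZ (Fin (n + 1)) (fun _ : Fin 1 => e) (H : ℝ)).card : ℝ) := by
      have := hT (fun _ => True) (fun _ => True) (fun _ => Iff.rfl) H
      simp only [and_true, Finset.filter_true] at this
      rw [← this]
      rfl
    rw [hT (fun f => Smooth f ∧ LocallySoluble f)
      (fun f => Pool.Agent.Y697.C13.SmoothS f ∧ Pool.Agent.Y716.C.ElsS f)
      (fun f => and_congr (smooth_iff f) (els_iff f)) H, h6]
    have h7 : (((Pool.Agent.Y716.C.sysZ (Fin (n + 1)) (fun _ : Fin 1 => e) (H : ℝ)).filter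
        (fun f => ∃ x : Fin (n + 1) → ℤ, x ≠ 0 ∧ ∀ j, MvPolynomial.eval x (f j) = 0)).card : ℝ) ≤
        ((Pool.Agent.Y716.C.sysZ (Fin (n + 1)) (fun _ : Fin 1 => e) (H : ℝ)).filter
        (fun f => Pool.Agent.Y697.C13.SmoothS f ∧ Pool.Agent.Y716.C.ElsS f)).card +
        ((Pool.Agent.Y716.C.sysZ (Fin (n + 1)) (fun _ : Fin 1 => e) (H : ℝ)).filter
        (fun f => ¬ Pool.Agent.Y697.C13.SmoothS f)).card :=
      Pool.Agent.Y716.C.card_filter_le_add' _ _ _ _ (fun f _ hf => by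
        by_cases hs : Pool.Agent.Y697.C13.SmoothS f
        · exact Or.inl ⟨hs, Pool.Agent.Y487.C8.sol_elsS hf⟩
        · exact Or.inr hs)
    have h9 : c * ((Pool.Agent.Y716.C.sysZ (Fin (n + 1)) (fun _ : Fin 1 => e) (H : ℝ)).card : ℝ) ≤
      (((Pool.Agent.Y716.C.sysZ (Fin (n + 1)) (fun _ : Fin 1 => e) (H : ℝ)).filter
        (fun f => ∃ x : Fin (n + 1) → ℤ, x ≠ 0 ∧ ∀ j, MvPolynomial.eval x (f j) = 0)).card : ℝ) := by
      convert h4
    have h10 : (((Pool.Agent.Y716.C.sysZ (Fin (n + 1)) (fun _ : Fin 1 => e) (H : ℝ)).filter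
        (fun f => ¬ Pool.Agent.Y697.C13.SmoothS f)).card : ℝ) ≤
        c / 2 * (Pool.Agent.Y716.C.sysZ (Fin (n + 1)) (fun _ : Fin 1 => e) (H : ℝ)).card := by
      convert h5
    have h11 := h9.trans h7
    have h12 : c * ((Pool.Agent.Y716.C.sysZ (Fin (n + 1)) (fun _ : Fin 1 => e) (H : ℝ)).card : ℝ) ≤
      ((Pool.Agent.Y716.C.sysZ (Fin (n + 1)) (fun _ : Fin 1 => e) (H : ℝ)).filter
        (fun f => Pool.Agent.Y697.C13.SmoothS f ∧ Pool.Agent.Y716.C.ElsS f)).card +
        c / 2 * (Pool.Agent.Y716.C.sysZ (Fin (n + 1)) (fun _ : Fin 1 => e) (H : ℝ)).card :=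
      h11.trans (by gcongr)
    have h13 : c / 2 * ((Pool.Agent.Y716.C.sysZ (Fin (n + 1)) (fun _ : Fin 1 => e)
        (H : ℝ)).card : ℝ) ≤
      ((Pool.Agent.Y716.C.sysZ (Fin (n + 1)) (fun _ : Fin 1 => e) (H : ℝ)).filter
        (fun f => Pool.Agent.Y697.C13.SmoothS f ∧ Pool.Agent.Y716.C.ElsS f)).card := by
      linarith
    convert h13
  · refine tendsto_of_tendsto_of_tendsto_of_le_of_le hhp tendsto_const_nhds (fun H => ?_)
      (fun H => ?_)
    · show _ / _ ≤ _ / _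
      rw [hT (fun f => Smooth f ∧ LocallySoluble f)
        (fun f => Pool.Agent.Y697.C13.SmoothS f ∧ Pool.Agent.Y716.C.ElsS f)
        (fun f => and_congr (smooth_iff f) (els_iff f)) H,
        Pool.Agent.Y487.C8.ncard_eq_filterS, Pool.Agent.Y487.C8.ncard_eq_filterS]
      refine div_le_div_of_nonneg_right ?_ (Nat.cast_nonneg _)
      rw [← Pool.Agent.Y487.C8.ncard_eq_filterS,
        ← ncard_one (fun f => Smooth f ∧ ∃ x : Fin (n + 1) → ℚ, x ≠ 0 ∧ MvPolynomial.aeval x f = 0)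
          (fun f => Pool.Agent.Y697.C13.SmoothS f ∧
            ∃ x : Fin (n + 1) → ℚ, x ≠ 0 ∧ ∀ j, MvPolynomial.aeval x (f j) = 0)
          (fun f => and_congr (smooth_iff f) (by simp only [forall_const])) H]
      have hfin : ({f | f ∈ Forms n (e + 2) H ∧ Smooth f ∧ LocallySoluble f ∧
          ∀ F : Family n, Nat.Coprime F.m (e + 2) → HasZeroCycleOfDegreeOne f F ℚ} :
          Set (MvPolynomial (Fin (n + 1)) ℤ)).Finite := by
        have h1 : ({f : Fin 1 → MvPolynomial (Fin (n + 1)) ℤ |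
            f ∈ Pool.Agent.Y716.C.sysZ (Fin (n + 1)) (fun _ : Fin 1 => e) (H : ℝ)} :
            Set _).Finite := Finset.finite_toSet _
        refine (h1.image (fun f => f 0)).subset ?_
        rintro f ⟨hf, -⟩
        refine ⟨fun _ => f, ?_, rfl⟩
        have h2 : (fun _ : Fin 1 => f) ∈ ({g : Fin 1 → MvPolynomial (Fin (n + 1)) ℤ |
            (∀ j, (g j).IsHomogeneous ((fun _ => e) j + 2) ∧
              ∀ m, |(g j).coeff m| ≤ (H : ℤ)) ∧ True} : Set _) := ⟨fun _ => hf, trivial⟩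
        rw [Set.mem_setOf_eq, Pool.Agent.Y716.C.mem_sysZ]
        intro j
        refine ⟨hf.1, fun m => ?_⟩
        have := hf.2 m
        have h3 : ((|f.coeff m| : ℤ) : ℝ) ≤ ((H : ℤ) : ℝ) := by exact_mod_cast this
        rw [Int.cast_abs] at h3
        simpa using h3
      have hsub : ({f | f ∈ Forms n (e + 2) H ∧ Smooth f ∧
          ∃ x : Fin (n + 1) → ℚ, x ≠ 0 ∧ MvPolynomial.aeval x f = 0} :
          Set (MvPolynomial (Fin (n + 1)) ℤ)) ⊆
          {f | f ∈ Forms n (e + 2) H ∧ Smooth f ∧ LocallySoluble f ∧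
          ∀ F : Family n, Nat.Coprime F.m (e + 2) → HasZeroCycleOfDegreeOne f F ℚ} := by
        rintro f ⟨hf, hs, hx⟩
        refine ⟨hf, hs, ?_, fun F hF => zc_of_point hn hf.1 F hF ℚ hx⟩
        have hx' : ∃ x : Fin (n + 1) → ℚ, x ≠ 0 ∧
            ∀ j : Fin 1, MvPolynomial.aeval x ((fun _ => f) j : MvPolynomial (Fin (n + 1)) ℤ) = 0 := by
          simpa only [forall_const] using hx
        exact (els_iff f).1 (Pool.Agent.Y487.C8.sol_elsS
          ((Pool.Agent.Y487.C8.solQ_iffS (e := fun _ => e) (fun _ => hf.1)).mp hx'))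
      exact Nat.cast_le.2 (Set.ncard_le_ncard hsub hfin)
    · refine div_le_one_of_le₀ ?_ (Nat.cast_nonneg _)
      have hfin : ({f | f ∈ Forms n (e + 2) H ∧ Smooth f ∧ LocallySoluble f} :
          Set (MvPolynomial (Fin (n + 1)) ℤ)).Finite := by
        have h1 : ({f : Fin 1 → MvPolynomial (Fin (n + 1)) ℤ |
            f ∈ Pool.Agent.Y716.C.sysZ (Fin (n + 1)) (fun _ : Fin 1 => e) (H : ℝ)} :
            Set _).Finite := Finset.finite_toSet _
        refine (h1.image (fun f => f 0)).subset ?_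
        rintro f ⟨hf, -⟩
        refine ⟨fun _ => f, ?_, rfl⟩
        rw [Set.mem_setOf_eq, Pool.Agent.Y716.C.mem_sysZ]
        intro j
        refine ⟨hf.1, fun m => ?_⟩
        have := hf.2 m
        have h3 : ((|f.coeff m| : ℤ) : ℝ) ≤ ((H : ℤ) : ℝ) := by exact_mod_cast this
        rw [Int.cast_abs] at h3
        simpa using h3
      have hsub : ({f | f ∈ Forms n (e + 2) H ∧ Smooth f ∧ LocallySoluble f ∧
          ∀ F : Family n, Nat.Coprime F.m (e + 2) → HasZeroCycleOfDegreeOne f F ℚ} :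
          Set (MvPolynomial (Fin (n + 1)) ℤ)) ⊆
          {f | f ∈ Forms n (e + 2) H ∧ Smooth f ∧ LocallySoluble f} :=
        fun f hf => ⟨hf.1, hf.2.1, hf.2.2.1⟩
      exact Nat.cast_le.2 (Set.ncard_le_ncard hsub hfin)
  · intro h3 f hf F hF
    have he : e = 1 := by omega
    subst he
    constructor
    · rintro ⟨h1, h2⟩
      have hzc : ∀ (K : Type) [Field K], HasZeroCycleOfDegreeOne f F K →
          Pool.Agent.Y716.C.ZC (fun _ : Fin 1 => f) K := by
        rintro K _ ⟨t, L, hF', hA, m, g1, g2, g3⟩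
        refine ⟨t, L, hF', hA, m, g1, fun i => ?_, g3⟩
        obtain ⟨x, z, hx, -, hfx, -⟩ := g2 i
        exact ⟨x, hx, fun _ => hfx⟩
      exact (els_iff f).1 ((Pool.Agent.Y716.D.zc_cubic (by rw [Fintype.card_fin]; omega)
        (fun _ => hf)).1 ⟨hzc ℝ h1, fun p _ => hzc ℚ_[p] (h2 p)⟩)
    · rintro ⟨h1, h2⟩
      exact ⟨zc_of_point hn hf F hF ℝ h1, fun p _ => zc_of_point hn hf F hF ℚ_[p] (h2 p)⟩

end Pool.Agent.Results.MP_1ad228_nt.FamiliesOfSections
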