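import Pool.Agent.Results.MP_1ad228_nt.CubicZeroCycles
import Pool.Agent.Results.MP_1ad228_nt.TwoQuadricsZeroCycles
import Pool.Agent.Q319.WN.Form2
import Pool.Agent.Q319.WN.Cast

/-!
# Zero-cycles of degree one on ALL cubic hypersurfaces and intersections of two quadrics near the multiples and the dilates of
almost every real one

We consider smooth cubic hypersurfaces in `ℙⁿ`, `n ≥ 3` (so cubic surfaces are included), and smooth intersections of two
quadrics in `ℙⁿ`, `n ≥ 4` (so del Pezzo surfaces of degree four are included), given by integral forms whose coefficients are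
close to those of the multiples `k F` or of the dilates `v_k F` of real forms `F`. The statement in question is: if the variety
has zero-cycles of degree one over the real numbers and over all the `p`-adic fields then it has a rational point, in
particular a zero-cycle of degree one over `ℚ`.

1. For all real `F` with coefficients at most `Y` outside a set of measure at most `ε Y ^ M` (`M` the number of
   coefficients) and 100% of the `k ≤ R` it holds for ALL the varieties given by integral forms whose coefficients are
   within `w` of those of `k F` (`Y` large in terms of `ε` and `w`; every `R`).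
2. For every sequence `v_k → ∞` and almost every real `F` it holds for ALL the varieties within `w` of `v_k F`, for 100% of
   the `k < K_j`, for a sequence `K_j → ∞` which does not depend on `F`.
3. If `v_k` increases fast enough then for almost every real `F` and all large `k` it holds for ALL the varieties given by
   integral forms whose coefficients are within `k` of those of `v_k F`.

From Mathlib: `volume`: the Lebesgue measure; `MvPolynomial`, `IsHomogeneous`. The statement for 100% of the varieties is
from the starting files `CubicZeroCycles` and `TwoQuadricsZeroCycles` (with the definitions of `Smooth`,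
`HasZeroCycleOfDegreeOne`, `HasRationalPoint`). `poly`, `system`, `mons` are defined in `Pool.Agent.Q319.WN.Form`;
`MultiplesVec`, `DilatesVec`, `FastDilatesVec` in `Pool.Agent.Q319.WN.Vec`.
-/

set_option autoImplicit false

namespace Pool.Agent.Results.MP_1ad228_nt.FormsNearRealForms

open Filter Topology Pool.Agent.Q319.WN

/-- The cubic hypersurface `f = 0` is smooth, has zero-cycles of degree one over the real numbers and over all the `p`-adic
fields, but no rational point. -/
def CubicException {n : ℕ} (f : MvPolynomial (Fin (n + 1)) ℤ) : Prop :=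
  (CubicZeroCycles.Smooth f ∧ CubicZeroCycles.HasZeroCycleOfDegreeOne f ℝ ∧
    ∀ (p : ℕ) [Fact p.Prime], CubicZeroCycles.HasZeroCycleOfDegreeOne f ℚ_[p]) ∧
    ¬ CubicZeroCycles.HasRationalPoint f

/-- The intersection of two quadrics `q 0 = q 1 = 0` is smooth, has zero-cycles of degree one over the real numbers and over
all the `p`-adic fields, but no rational point. -/
def QuadricsException {n : ℕ} (q : Fin 2 → MvPolynomial (Fin (n + 1)) ℤ) : Prop :=
  (TwoQuadricsZeroCycles.Smooth q ∧ TwoQuadricsZeroCycles.HasZeroCycleOfDegreeOne q ℝ ∧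
    ∀ (p : ℕ) [Fact p.Prime], TwoQuadricsZeroCycles.HasZeroCycleOfDegreeOne q ℚ_[p]) ∧
    ¬ TwoQuadricsZeroCycles.HasRationalPoint q

lemma cubic_cycle {n : ℕ} {f : MvPolynomial (Fin (n + 1)) ℤ} (h : CubicZeroCycles.HasRationalPoint f) (K : Type)
    [Field K] [CharZero K] : CubicZeroCycles.HasZeroCycleOfDegreeOne f K := by
  obtain ⟨x, hx, h0⟩ := h
  refine ⟨1, fun _ => K, fun _ => inferInstance, fun _ => Algebra.id K, fun _ => 1, fun _ => inferInstance, fun _ => ?_, ?_⟩
  · exact ⟨fun i => (x i : K), cast_ne K hx, by rw [cast_aeval, h0, Rat.cast_zero]⟩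
  · simp

lemma quadrics_cycle {n : ℕ} {q : Fin 2 → MvPolynomial (Fin (n + 1)) ℤ} (h : TwoQuadricsZeroCycles.HasRationalPoint q)
    (K : Type) [Field K] [CharZero K] : TwoQuadricsZeroCycles.HasZeroCycleOfDegreeOne q K := by
  obtain ⟨x, hx, h0⟩ := h
  refine ⟨1, fun _ => K, fun _ => inferInstance, fun _ => Algebra.id K, fun _ => 1, fun _ => inferInstance, fun _ => ?_, ?_⟩
  · exact ⟨fun i => (x i : K), cast_ne K hx, fun j => by rw [cast_aeval, h0 j, Rat.cast_zero]⟩
  · simp

lemma cubic_null (n : ℕ) (hn : 3 ≤ n) :
    NullBox (fun x : ↥(mons n 3) → ℤ => CubicException (poly (mons n 3) x)) := by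
  refine null_poly (mons n 3) (fun f => CubicZeroCycles.Smooth f ∧ CubicZeroCycles.HasZeroCycleOfDegreeOne f ℝ ∧
    ∀ (p : ℕ) [Fact p.Prime], CubicZeroCycles.HasZeroCycleOfDegreeOne f ℚ_[p])
    (fun f => CubicZeroCycles.HasRationalPoint f) ((CubicZeroCycles.result n hn).congr fun H => ?_)
  have e0 : CubicZeroCycles.Forms n H = {f : MvPolynomial (Fin (n + 1)) ℤ | f.support ⊆ mons n 3 ∧
      ∀ m, |f.coeff m| ≤ (H : ℤ)} := by
    ext f
    simp only [CubicZeroCycles.Forms, Set.mem_ofPred_eq, homog_iff]
  rw [e0]
  congr 3
  ext f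
  constructor
  · rintro ⟨a, b, c⟩
    exact ⟨a, ⟨b, cubic_cycle c ℝ, fun p _ => cubic_cycle c ℚ_[p]⟩, c⟩
  · rintro ⟨a, ⟨b, -⟩, c⟩
    exact ⟨a, b, c⟩

lemma quadrics_null (n : ℕ) (hn : 4 ≤ n) :
    NullBox (fun x : (Σ _ : Fin 2, ↥(mons n 2)) → ℤ => QuadricsException (system (fun _ : Fin 2 => mons n 2) x)) := by
  refine null_system (fun _ : Fin 2 => mons n 2) (fun f => TwoQuadricsZeroCycles.Smooth f ∧
    TwoQuadricsZeroCycles.HasZeroCycleOfDegreeOne f ℝ ∧
    ∀ (p : ℕ) [Fact p.Prime], TwoQuadricsZeroCycles.HasZeroCycleOfDegreeOne f ℚ_[p])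
    (fun f => TwoQuadricsZeroCycles.HasRationalPoint f) ((TwoQuadricsZeroCycles.result n hn).congr fun H => ?_)
  have e0 : TwoQuadricsZeroCycles.Pairs n H = {f : Fin 2 → MvPolynomial (Fin (n + 1)) ℤ |
      ∀ j, (f j).support ⊆ mons n 2 ∧ ∀ m, |(f j).coeff m| ≤ (H : ℤ)} := by
    ext f
    simp only [TwoQuadricsZeroCycles.Pairs, Set.mem_ofPred_eq, homog_iff]
  rw [e0]
  congr 3
  ext f
  constructor
  · rintro ⟨a, b, c⟩
    exact ⟨a, ⟨b, quadrics_cycle c ℝ, fun p _ => quadrics_cycle c ℚ_[p]⟩, c⟩
  · rintro ⟨a, ⟨b, -⟩, c⟩
    exact ⟨a, b, c⟩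

/-- For integral cubic forms in `n + 1 ≥ 4` variables, and for pairs of integral quadratic forms in `n + 1 ≥ 5` variables, the
property to define a smooth variety with zero-cycles of degree one over the real numbers and over all the `p`-adic fields
but without rational point is
1. rare at the multiples of almost every real cubic form or pair of quadratic forms `F`,
2. rare at the dilates `v k F`, for every sequence `v k → ∞` and almost every `F`,
3. absent within the distance `k` of `v k F` for all large `k`, for every fast sequence `v k` and almost every `F`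
(see `MultiplesVec`, `DilatesVec` and `FastDilatesVec` for the precise statements). -/
theorem result :
    (∀ n : ℕ, 3 ≤ n →
      MultiplesVec (fun x : ↥(mons n 3) → ℤ => CubicException (poly (mons n 3) x)) ∧
      DilatesVec (fun _ (x : ↥(mons n 3) → ℤ) => CubicException (poly (mons n 3) x)) ∧
      FastDilatesVec (fun _ (x : ↥(mons n 3) → ℤ) => CubicException (poly (mons n 3) x))) ∧
    ∀ n : ℕ, 4 ≤ n →
      MultiplesVec (fun x : (Σ _ : Fin 2, ↥(mons n 2)) → ℤ => QuadricsException (system (fun _ => mons n 2) x)) ∧
      DilatesVec (fun _ (x : (Σ _ : Fin 2, ↥(mons n 2)) → ℤ) => QuadricsException (system (fun _ => mons n 2) x)) ∧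
      FastDilatesVec (fun _ (x : (Σ _ : Fin 2, ↥(mons n 2)) → ℤ) => QuadricsException (system (fun _ => mons n 2) x)) := by
  refine ⟨fun n hn => ?_, fun n hn => ?_⟩
  · have h := null_all (P := fun _ (x : ↥(mons n 3) → ℤ) => CubicException (poly (mons n 3) x))
      fun _ => cubic_null n hn
    exact ⟨h.1 0, h.2⟩
  · have h := null_all (P := fun _ (x : (Σ _ : Fin 2, ↥(mons n 2)) → ℤ) =>
      QuadricsException (system (fun _ => mons n 2) x)) fun _ => quadrics_null n hn
    exact ⟨h.1 0, h.2⟩

end Pool.Agent.Results.MP_1ad228_nt.FormsNearRealForms
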