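import Mathlib
import Pool.Agent.Q284.ZC.Cyc
import Pool.Agent.Y667.RP.Disc
import Pool.Agent.W672.FK.Lowf
import Pool.Agent.W307.RT.Tors

/-!
# Zero-cycles of degree one on the 2-coverings of a positive proportion of the curves with full
rational 2-torsion

All elliptic curves `E` over `ℚ` with full rational 2-torsion, ordered by the naive height or by the
absolute value of the minimal discriminant. For an equation `y² = x (x - A) (x - B)` of `E` there are
the 2-coverings `D_{b,d} : b M² - A e² = d x², b M² - B e² = b d y²` of `E` (curves of genus one with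
the Jacobian `E`) and, for `b₁ ∣ A B` squarefree, the curves
`C_{b₁} : N² = b₁ M⁴ - (A + B) M² e² + (A B / b₁) e⁴` of genus one, their Jacobian is a curve
2-isogenous to `E`. As `b₁ N² = (b₁ M² - A e²) (b₁ M² - B e²)`, the quaternion algebras
`(b₁ M² - A e², q)` and `(b₁ M² - B e², q)` are elements of the Brauer group of `C_{b₁}`. For every `T`
the following holds for a positive proportion of the curves `E`, for ALL their equations: a curve
`D_{b,d}` with a zero-cycle of degree one over all the completions of `ℚ` has a rational point; a curve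
`C_{b₁}` with a family of local zero-cycles of degree one orthogonal to these elements of the Brauer
group has a rational point (so the assertion of the problem holds for all these curves); and for some
equation at least `2 ^ T` of the curves `C_{b₁}` have zero-cycles of degree one over all the completions
and no zero-cycle of degree one over `ℚ`.
-/

set_option autoImplicit false

namespace Pool.Agent.Results.MP_1ad228_nt.LocalZeroCyclesTwoCoverings

open Finset Filter Topology

/-- the curve `y² = x³ + A x + B` over `ℚ` -/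
def E (A B : ℤ) : WeierstrassCurve ℚ := ⟨0, 0, 0, (A : ℚ), (B : ℚ)⟩

/-- the absolute value of the minimal discriminant of an elliptic curve `W` over `ℚ`: the smallest
absolute value of the discriminant of a Weierstrass equation `V` with integer coefficients which is
isomorphic to `W` over `ℚ` -/
noncomputable def minDisc (W : WeierstrassCurve ℚ) : ℕ :=
  sInf {n : ℕ | ∃ (V : WeierstrassCurve ℤ) (C : WeierstrassCurve.VariableChange ℚ),
    C • W = V.map (Int.castRingHom ℚ) ∧ n = V.Δ.natAbs}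

/-- the naive height of `y² = x³ + A x + B` is at most `Z` -/
def HeightLe (c : ℤ × ℤ) (Z : ℕ) : Prop := 4 * |c.1| ^ 3 ≤ Z ∧ 27 * c.2 ^ 2 ≤ Z

/-- the minimal discriminant of `y² = x³ + A x + B` is at most `Z` in absolute value -/
def DiscLe (c : ℤ × ℤ) (Z : ℕ) : Prop := minDisc (E c.1 c.2) ≤ Z

/-- The pairs `(A, B)` of integers such that `4 A³ + 27 B² ≠ 0`, there is no prime `p` with
`p⁴ ∣ A` and `p⁶ ∣ B`, `Z/2 x Z/2` embeds in the group of the rational points of
`y² = x³ + A x + B`, and the size (`HeightLe` or `DiscLe`) is at most `Z`. Every elliptic curve over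
`ℚ` with full rational 2-torsion is isomorphic to `E A B` for exactly one pair with the first three
properties. -/
def Fam (I : ℤ × ℤ → ℕ → Prop) (Z : ℕ) : Set (ℤ × ℤ) :=
  {c : ℤ × ℤ | 4 * c.1 ^ 3 + 27 * c.2 ^ 2 ≠ 0 ∧
    (∀ p : ℕ, p.Prime → ¬ ((p : ℤ) ^ 4 ∣ c.1 ∧ (p : ℤ) ^ 6 ∣ c.2)) ∧
    (∃ f : ZMod 2 × ZMod 2 →+ (E c.1 c.2).toAffine.Point, Function.Injective f) ∧ I c Z}

/-- the proportion of the curves of `S` among the curves of size at most `Z` -/
noncomputable def proportion (I : ℤ × ℤ → ℕ → Prop) (S : Set (ℤ × ℤ)) (Z : ℕ) : ℝ :=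
  ((Fam I Z ∩ S).ncard : ℝ) / (Fam I Z).ncard

lemma FamH_eq (H : ℕ) : Fam HeightLe H = (Pool.Agent.W307.RT.Cv 2 H : Set (ℤ × ℤ)) := by
  classical
  ext c
  have h : Pool.Agent.W307.RT.HasT 2 (Pool.Agent.W307.RT.Sh c.1 c.2) ↔
    ∃ f : ZMod 2 × ZMod 2 →+ (E c.1 c.2).toAffine.Point, Function.Injective f :=
    Pool.Agent.W307.RT.tors_iff
  unfold Fam HeightLe Pool.Agent.W307.RT.Cv
  rw [Set.mem_ofPred_eq, mem_coe, mem_filter, h, mem_product, mem_Icc, mem_Icc]
  constructor
  · rintro ⟨h1, h2, h3, h4, h5⟩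
    refine ⟨⟨?_, ?_⟩, h1, h4, h5, h2, h3⟩
    · rw [← abs_le]
      have h0 := abs_nonneg c.1
      rcases eq_or_lt_of_le h0 with h6 | h6
      · rw [← h6]; positivity
      · have : 1 ≤ |c.1| := h6
        nlinarith [mul_nonneg h0 h0, mul_self_nonneg (|c.1| - 1)]
    · rw [← abs_le]
      have h0 := abs_nonneg c.2
      rw [← sq_abs] at h5
      rcases eq_or_lt_of_le h0 with h6 | h6
      · rw [← h6]; positivity
      · have : 1 ≤ |c.2| := h6
        nlinarith
  · rintro ⟨-, h1, h4, h5, h2, h3⟩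
    exact ⟨h1, h2, h3, h4, h5⟩

lemma FamD_eq (D : ℕ) : Fam DiscLe D = (Pool.Agent.TH344.DS.Dv D : Set (ℤ × ℤ)) := by
  classical
  have h0 : Fam DiscLe D = Pool.Agent.W307.RS.DvS 2 D := by
    ext c
    have h : Pool.Agent.W307.RT.HasT 2 (Pool.Agent.W307.RT.Sh c.1 c.2) ↔
        ∃ f : ZMod 2 × ZMod 2 →+ (E c.1 c.2).toAffine.Point, Function.Injective f :=
      Pool.Agent.W307.RT.tors_iff
    unfold Fam Pool.Agent.W307.RS.DvS
    rw [Set.mem_ofPred_eq, Set.mem_ofPred_eq, h]
    exact Iff.rfl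
  rw [h0]
  unfold Pool.Agent.TH344.DS.Dv
  rw [dif_pos (Pool.Agent.TH344.DS.excd.1 D), Set.Finite.coe_toFinset]

/-- The number of these curves tends to infinity (ordering by height). -/
lemma tendstoH : Tendsto (fun Z : ℕ => (Fam HeightLe Z).ncard) atTop atTop := by
  simp only [FamH_eq, Set.ncard_coe_finset]
  exact Pool.Agent.W307.RT.tendsto_of_low Pool.Agent.W672.FK.lowf

/-- The number of these curves tends to infinity (ordering by the minimal discriminant). -/
lemma tendstoD : Tendsto (fun Z : ℕ => (Fam DiscLe Z).ncard) atTop atTop := by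
  have h1 := Pool.Agent.W307.RT.tendsto_of_low Pool.Agent.W672.FK.lowf
  have h2 : Tendsto (fun D : ℕ => (Pool.Agent.W307.RT.Cv 2 (D / 32)).card) atTop atTop :=
    h1.comp (Nat.tendsto_div_const_atTop (by norm_num))
  obtain ⟨hD1, hD2, hD3⟩ := Pool.Agent.TH344.DS.excd
  refine tendsto_atTop_mono (fun D => ?_) h2
  have h3 : (Pool.Agent.TH344.DS.Dv D : Set (ℤ × ℤ)) = Pool.Agent.W307.RS.DvS 2 D := by
    unfold Pool.Agent.TH344.DS.Dv
    rw [dif_pos (hD1 D), Set.Finite.coe_toFinset]
  rw [FamD_eq, h3, ← Set.ncard_coe_finset]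
  exact Set.ncard_le_ncard (Pool.Agent.W307.RS.Cv_sub Pool.Agent.W554.RS.mdl 2 (D / 32) D
    (Nat.mul_div_le D 32)) (hD1 D)

/-- the curve `y² = x (x - A) (x - B)` over `ℚ` -/
def Leg (A B : ℤ) : WeierstrassCurve ℚ := ⟨0, ((-(A + B) : ℤ) : ℚ), 0, ((A * B : ℤ) : ℚ), 0⟩

/-- `y² = x (x - A) (x - B)` is an equation of the curve `y² = x³ + c.1 x + c.2` -/
def IsModel (c : ℤ × ℤ) (A B : ℤ) : Prop :=
  ∃ C : WeierstrassCurve.VariableChange ℚ, C • E c.1 c.2 = Leg A B

/-- A point over `K` of the curve `C_{b₁} : N² = b₁ M⁴ - (A + B) M² e² + (A B / b₁) e⁴` in a weighted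
projective plane. -/
structure Pt (K : Type) [Field K] (A B b₁ : ℤ) where
  /-- the coordinate of weight two -/
  N : K
  /-- the first coordinate of weight one -/
  M : K
  /-- the second coordinate of weight one -/
  e : K
  ne : M ≠ 0 ∨ e ≠ 0
  eq : N ^ 2 = (b₁ : K) * M ^ 4 + ((-(A + B) : ℤ) : K) * M ^ 2 * e ^ 2 +
    ((A * B / b₁ : ℤ) : K) * e ^ 4

/-- A point over `K` of the curve `D_{b,d} : b M² - A e² = d x², b M² - B e² = b d y²` in projective
space. -/
structure Pt2 (K : Type) [Field K] (A B b d : ℤ) where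
  /-- the first coordinate -/
  M : K
  /-- the second coordinate -/
  e : K
  /-- the third coordinate -/
  x : K
  /-- the fourth coordinate -/
  y : K
  ne : M ≠ 0 ∨ e ≠ 0
  eq1 : (b : K) * M ^ 2 - (A : K) * e ^ 2 = (d : K) * x ^ 2
  eq2 : (b : K) * M ^ 2 - (B : K) * e ^ 2 = (b : K) * d * y ^ 2

/-- One term of a zero-cycle over `K` of a variety with the sets `X L` of points over the extensions
`L` of `K`: a point `P` over a finite extension `L` of `K`, with the coefficient `n`. It stands for `n`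
times the push-forward of the point `P` of the variety over `L`, which is `[L : K(P)]` times a closed
point with the residue field `K(P)`; every closed point occurs, with `L` its residue field. -/
structure Term (K : Type) [Field K] (X : (L : Type) → [Field L] → Type) : Type 1 where
  /-- the coefficient -/
  n : ℤ
  /-- the extension -/
  L : Type
  [field : Field L]
  [algebra : Algebra K L]
  [finite : FiniteDimensional K L]
  /-- the point -/
  P : X L

attribute [instance] Term.field Term.algebra Term.finite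

/-- a zero-cycle over `K` is a finite sum of terms -/
abbrev Cycle (K : Type) [Field K] (X : (L : Type) → [Field L] → Type) : Type 1 := List (Term K X)

/-- the degree of a zero-cycle over `K` -/
noncomputable def degree {K : Type} [Field K] {X : (L : Type) → [Field L] → Type}
    (z : Cycle K X) : ℤ := (z.map fun t => t.n * (Module.finrank K t.L : ℤ)).sum

/-- a family of zero-cycles of degree one over all the completions of `ℚ` -/
structure Local (X : (L : Type) → [Field L] → Type) : Type 1 where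
  /-- the real component -/
  re : Cycle ℝ X
  /-- the `p`-adic components -/
  pa : ∀ p : Nat.Primes, Cycle ℚ_[(p : ℕ)] X
  re_deg : degree re = 1
  pa_deg : ∀ p, degree (pa p) = 1

/-- the curve `C_{b₁}` -/
abbrev CC (A B b₁ : ℤ) : (L : Type) → [Field L] → Type := fun L _ => Pt L A B b₁

/-- the curve `D_{b,d}` -/
abbrev DD (A B b d : ℤ) : (L : Type) → [Field L] → Type := fun L _ => Pt2 L A B b d

open Classical in
/-- The value of `b₁ M² - R e²` at a point, modulo squares, `(R, S)` is `(A, B)` or `(B, A)`. As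
`b₁ N² = (b₁ M² - R e²) (b₁ M² - S e²)`, it is computed from the other factor at a zero. -/
noncomputable def value {K : Type} [Field K] {A B b₁ : ℤ} (P : Pt K A B b₁) (R S : ℤ) : K :=
  if (b₁ : K) * P.M ^ 2 - R * P.e ^ 2 ≠ 0 then (b₁ : K) * P.M ^ 2 - R * P.e ^ 2
  else b₁ * ((b₁ : K) * P.M ^ 2 - S * P.e ^ 2)

/-- The value of `b₁ M² - R e²` at a zero-cycle, modulo squares: the product of the powers of the norms
of the values at the points. The value of the class `(b₁ M² - R e², q)` of the Brauer group, `q` in `K`,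
at the zero-cycle (the sum of the corestrictions of the values at the points) is the class of the
quaternion algebra with this entry and the entry `q`, by the projection formula. -/
noncomputable def eval {K : Type} [Field K] {A B b₁ : ℤ} (z : Cycle K (CC A B b₁)) (R S : ℤ) : K :=
  (z.map fun t => (Algebra.norm K (value t.P R S)) ^ t.n).prod

/-- The quaternion algebra `(a, b)` over `F` splits, that is, the Hilbert symbol `(a, b)` is `1`:
the conic `z ^ 2 = a x ^ 2 + b y ^ 2` has a point over `F`. -/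
def Splits {F : Type} [Field F] (a b : F) : Prop :=
  ∃ x y z : F, (x ≠ 0 ∨ y ≠ 0 ∨ z ≠ 0) ∧ z ^ 2 = a * x ^ 2 + b * y ^ 2

/-- The set of the places (`none` is the real one) at which the value of the class
`(b₁ M² - R e², q)` at the family of local zero-cycles is not trivial. -/
def Ram {A B b₁ : ℤ} (z : Local (CC A B b₁)) (R S q : ℤ) : Set (Option Nat.Primes) :=
  {v | match v with
    | none => ¬ Splits (eval z.re R S) (q : ℝ)
    | some p => ¬ Splits (eval (z.pa p) R S) (q : ℚ_[(p : ℕ)])}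

/-- The family of local zero-cycles is orthogonal to the classes `(b₁ M² - A e², q)` and
`(b₁ M² - B e², q)`, `q` a nonzero integer: the number of the places at which the value is not trivial
is even, so that the sum of the invariants is zero. -/
def Orthogonal {A B b₁ : ℤ} (z : Local (CC A B b₁)) : Prop :=
  ∀ q : ℤ, q ≠ 0 → Even (Ram z A B q).ncard ∧ Even (Ram z B A q).ncard

/-- The curves such that for all their equations `y² = x (x - A) (x - B)` with integers `A`, `B`: every
curve `D_{b,d}` with local zero-cycles of degree one has a rational point, and every curve `C_{b₁}` with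
a family of local zero-cycles of degree one orthogonal to the classes has a rational point. -/
def Decided : Set (ℤ × ℤ) :=
  {c | ∀ A B : ℤ, IsModel c A B →
    (∀ b d : ℤ, Squarefree b → Squarefree d → Nonempty (Local (DD A B b d)) →
      Nonempty (Pt2 ℚ A B b d)) ∧
    (∀ b₁ : ℤ, Squarefree b₁ → b₁ ∣ A * B → (∃ z : Local (CC A B b₁), Orthogonal z) →
      Nonempty (Pt ℚ A B b₁))}

/-- the curves with an equation `y² = x (x - A) (x - B)`, `A`, `B` integers, for which at least `n` of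
the curves `C_{b₁}` have local zero-cycles of degree one and no zero-cycle of degree one over `ℚ` -/
def Violations (n : ℕ) : Set (ℤ × ℤ) :=
  {c | ∃ A B : ℤ, IsModel c A B ∧ n ≤ {b₁ : ℤ | Squarefree b₁ ∧ b₁ ∣ A * B ∧
    Nonempty (Local (CC A B b₁)) ∧ ¬ ∃ z : Cycle ℚ (CC A B b₁), degree z = 1}.ncard}

lemma quar_iff {A B b₁ : ℤ} : Pool.Agent.Q284.FDQ.Quar ℚ A B b₁ ↔ Nonempty (Pt ℚ A B b₁) :=
  ⟨fun ⟨N, M, e, h0, h1⟩ => ⟨⟨N, M, e, h0, h1⟩⟩, fun ⟨P⟩ => ⟨P.N, P.M, P.e, P.ne, P.eq⟩⟩

/-- a point with the same values as a zero-cycle of degree one -/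
lemma cycle_pt {K : Type} [Field K] [CharZero K] {A B b₁ : ℤ} (hA : A ≠ 0) (hB : B ≠ 0)
    (hAB : A ≠ B) (hb : b₁ ≠ 0) (hd : b₁ ∣ A * B) (z : Cycle K (CC A B b₁)) (hz : degree z = 1) :
    ∃ P : Pt K A B b₁, IsSquare (value P A B * eval z A B) ∧
      IsSquare (value P B A * eval z B A) ∧ eval z A B ≠ 0 ∧ eval z B A ≠ 0 := by
  have hne : ∀ (R S : ℤ), R ≠ S → ∀ t : Term K (CC A B b₁),
      Algebra.norm K (value t.P R S) ≠ 0 := by
    intro R S hRS t
    haveI : CharZero t.L := charZero_of_injective_algebraMap (algebraMap K t.L).injective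
    exact Algebra.norm_ne_zero_iff.2 (Pool.Agent.Q284.ZC.val_ne hb hRS t.P.ne)
  obtain ⟨N, M, e, k1, k2, k3, k4⟩ := Pool.Agent.Q284.ZC.quart_cycle (K := K) hA hB hAB hb hd
    (fun t : Term K (CC A B b₁) => t.n) (fun t => Module.finrank K t.L)
    (fun t => Algebra.norm K (value t.P A B)) (fun t => Algebra.norm K (value t.P B A))
    (hne A B hAB) (hne B A hAB.symm)
    (fun t => Pool.Agent.Q284.ZC.single hA hB hAB hb hd t.P.ne t.P.eq) z hz
  exact ⟨⟨N, M, e, k1, k2⟩, k3, k4, Pool.Agent.Q284.ZC.list_ne (hne A B hAB) _ z,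
    Pool.Agent.Q284.ZC.list_ne (hne B A hAB.symm) _ z⟩

lemma value_ne {K : Type} [Field K] [CharZero K] {A B b₁ R S : ℤ} (hb : b₁ ≠ 0) (hRS : R ≠ S)
    (P : Pt K A B b₁) : value P R S ≠ 0 :=
  Pool.Agent.Q284.ZC.val_ne hb hRS P.ne

/-- the Brauer-Manin obstruction -/
lemma rat_of_orth {A B b₁ : ℤ} (hA : A ≠ 0) (hB : B ≠ 0) (hAB : A ≠ B)
    (h4 : Pool.Agent.Q284.FDQ.Four A B) (hc4 : (Pool.Agent.W307.SE.Sel A B).ncard ≤ 4)
    (hb : Squarefree b₁) (hd : b₁ ∣ A * B) (z : Local (CC A B b₁)) (hz : Orthogonal z) :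
    Nonempty (Pt ℚ A B b₁) := by
  rw [← quar_iff]
  by_contra hno
  obtain ⟨Pr, r1, r2, r3, r4⟩ := cycle_pt hA hB hAB hb.ne_zero hd z.re z.re_deg
  choose Pp p1 p2 p3 p4 using fun p : Nat.Primes =>
    cycle_pt hA hB hAB hb.ne_zero hd (z.pa p) (z.pa_deg p)
  obtain ⟨Q, hQ⟩ : ∃ Q : Pool.Agent.W313.BMX.AdelicPoint (Pool.Agent.Q284.FDQ.fac A B b₁) b₁,
    Q = ⟨Pool.Agent.Q284.FDQ.toPoint hb.ne_zero hd Pr.N Pr.M Pr.e Pr.ne Pr.eq, fun p =>
      Pool.Agent.Q284.FDQ.toPoint hb.ne_zero hd (Pp p).N (Pp p).M (Pp p).e (Pp p).ne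
        (Pp p).eq⟩ := ⟨_, rfl⟩
  obtain ⟨k, q, hq, ho⟩ := Pool.Agent.Q284.FDQ.bm_core hA hB hAB h4 hc4 hb hd hno Q
  have hk : k = 0 ∨ k = 1 := by fin_cases k <;> simp
  obtain ⟨z1, z2⟩ := hz q hq
  rcases hk with rfl | rfl
  · have e : Pool.Agent.W313.BMX.ram (Pool.Agent.W313.BMX.values Q 0) q = Ram z A B q := by
      rw [hQ]
      ext v
      cases v with
      | none =>
        change ¬ Pool.Agent.W313.BMX.Splits (Pool.Agent.W313.BMX.value _ 0) _ ↔
          ¬ Pool.Agent.W313.BMX.Splits _ _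
        rw [Pool.Agent.Q284.FDQ.value0 hb.ne_zero]
        exact not_congr (Pool.Agent.Q284.ZC.splits_sq (value_ne hb.ne_zero hAB Pr) r3 r1)
      | some p =>
        change ¬ Pool.Agent.W313.BMX.Splits (Pool.Agent.W313.BMX.value _ 0) _ ↔
          ¬ Pool.Agent.W313.BMX.Splits _ _
        rw [Pool.Agent.Q284.FDQ.value0 hb.ne_zero]
        exact not_congr (Pool.Agent.Q284.ZC.splits_sq (value_ne hb.ne_zero hAB (Pp p)) (p3 p)
          (p1 p))
    rw [e] at ho
    exact Nat.not_odd_iff_even.2 z1 ho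
  · have e : Pool.Agent.W313.BMX.ram (Pool.Agent.W313.BMX.values Q 1) q = Ram z B A q := by
      rw [hQ]
      ext v
      cases v with
      | none =>
        change ¬ Pool.Agent.W313.BMX.Splits (Pool.Agent.W313.BMX.value _ 1) _ ↔
          ¬ Pool.Agent.W313.BMX.Splits _ _
        rw [Pool.Agent.Q284.FDQ.value1 hb.ne_zero]
        exact not_congr (Pool.Agent.Q284.ZC.splits_sq (value_ne hb.ne_zero hAB.symm Pr) r4 r2)
      | some p =>
        change ¬ Pool.Agent.W313.BMX.Splits (Pool.Agent.W313.BMX.value _ 1) _ ↔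
          ¬ Pool.Agent.W313.BMX.Splits _ _
        rw [Pool.Agent.Q284.FDQ.value1 hb.ne_zero]
        exact not_congr (Pool.Agent.Q284.ZC.splits_sq (value_ne hb.ne_zero hAB.symm (Pp p)) (p4 p)
          (p2 p))
    rw [e] at ho
    exact Nat.not_odd_iff_even.2 z2 ho

/-- local zero-cycles of degree one on the full coverings -/
lemma cycle_cov {K : Type} [Field K] [CharZero K] {A B b d : ℤ} (hA : A ≠ 0) (hB : B ≠ 0)
    (hAB : A ≠ B) (hb : b ≠ 0) (hd : d ≠ 0) (z : Cycle K (DD A B b d)) (hz : degree z = 1) :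
    Pool.Agent.Q284.FDQ.Cov K A B b d := by
  refine Pool.Agent.Q284.ZC.cov_cycle (K := K) hA hB hAB hb hd
    (fun t : Term K (DD A B b d) => t.n) (fun t => Module.finrank K t.L)
    (fun t => Algebra.norm K (Pool.Agent.Q284.ZC.val b B A t.P.M t.P.e)) (fun t => ?_)
    (fun t => Pool.Agent.Q284.ZC.single_cov hA hB hAB hb t.P.ne t.P.eq1 t.P.eq2) z hz
  haveI : CharZero t.L := charZero_of_injective_algebraMap (algebraMap K t.L).injective
  exact Algebra.norm_ne_zero_iff.2 (Pool.Agent.Q284.ZC.val_ne hb hAB.symm t.P.ne)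

/-- a point is a zero-cycle of degree one -/
lemma point_cycle {K : Type} [Field K] {A B b₁ : ℤ} (P : Pt K A B b₁) :
    degree ([⟨1, K, P⟩] : Cycle K (CC A B b₁)) = 1 := by
  unfold degree
  simp

lemma mem_of {T : ℕ} {c : ℤ × ℤ} (h : Pool.Agent.Q284.FDQ.PQ (T + 1) c) :
    c ∈ Decided ∩ Violations (2 ^ T) := by
  refine ⟨fun A B hM => ?_, ?_⟩
  · obtain ⟨hA, hB, hAB, h4, hc⟩ := h.2.1 A B hM
    have hc4 : (Pool.Agent.W307.SE.Sel A B).ncard ≤ 4 := by
      rw [hc, h.1.2.1]
      norm_num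
    refine ⟨fun b d hb hd ⟨z⟩ => ?_, fun b₁ hb hd ⟨z, hz⟩ =>
      rat_of_orth hA hB hAB h4 hc4 hb hd z hz⟩
    obtain ⟨M, e, x, y, k1, k2, k3⟩ := Pool.Agent.Q284.FDQ.cov_rat hA hB hAB h4 hc4 hb hd
      (cycle_cov hA hB hAB hb.ne_zero hd.ne_zero z.re z.re_deg)
      (fun p hp => cycle_cov hA hB hAB hb.ne_zero hd.ne_zero (z.pa ⟨p, hp.out⟩)
        (z.pa_deg ⟨p, hp.out⟩))
    exact ⟨⟨M, e, x, y, k1, k2, k3⟩⟩
  · obtain ⟨A, B, h1, h2⟩ := Pool.Agent.Q284.FDQ.many_not h
    obtain ⟨hA, hB, hAB, h4, hc⟩ := h.2.1 A B h1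
    refine ⟨A, B, h1, h2.trans (Set.ncard_le_ncard ?_ ?_)⟩
    · rintro b₁ ⟨⟨k1, k2, ⟨N, M, e, k3, k4⟩, k5⟩, k6⟩
      choose N' M' e' k7 k8 using fun p : Nat.Primes => k5 (p : ℕ)
      refine ⟨k1, k2, ⟨⟨[⟨1, ℝ, ⟨N, M, e, k3, k4⟩⟩], fun p =>
        [⟨1, ℚ_[(p : ℕ)], ⟨N' p, M' p, e' p, k7 p, k8 p⟩⟩], point_cycle _,
        fun p => point_cycle _⟩⟩, ?_⟩
      rintro ⟨z, hz⟩
      obtain ⟨P, -⟩ := cycle_pt hA hB hAB k1.ne_zero k2 z hz
      exact k6 (quar_iff.2 ⟨P⟩)
    · refine (Set.finite_Icc (-|A * B|) |A * B|).subset ?_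
      rintro b₁ ⟨-, k2, -⟩
      rw [Set.mem_Icc, ← abs_le]
      have h0 : (0 : ℤ) < |A * B| := abs_pos.2 (mul_ne_zero hA hB)
      exact Int.le_of_dvd h0 ((abs_dvd_abs _ _).2 k2)

/-- **Theorem.** Order the elliptic curves over `ℚ` with full rational 2-torsion by the naive height
or by the absolute value of the minimal discriminant. For both orderings there are finitely many
curves of size at most `Z`, their number tends to infinity with `Z`, and for every `T` a positive
proportion of the curves (the lower density is positive) belongs to `Decided` and has at least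
`2 ^ T` curves `C_{b₁}` with local zero-cycles of degree one and without a zero-cycle of degree one
over `ℚ` for one of its equations `y² = x (x - A) (x - B)`. -/
theorem result : ∀ I : ℤ × ℤ → ℕ → Prop, I = HeightLe ∨ I = DiscLe →
    (∀ Z : ℕ, (Fam I Z).Finite) ∧ Tendsto (fun Z : ℕ => (Fam I Z).ncard) atTop atTop ∧
    ∀ T : ℕ, ∃ δ : ℝ, 0 < δ ∧
      ∀ᶠ Z : ℕ in atTop, δ ≤ proportion I (Decided ∩ Violations (2 ^ T)) Z := by
  classical
  have h0 : ∀ T : ℕ, ∃ c : ℝ, 0 < c ∧ ∃ H0 : ℕ, ∀ H : ℕ, H0 ≤ H →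
      c * ((Pool.Agent.W307.RT.Cv 2 H).card : ℝ) ≤
        (((Pool.Agent.W307.RT.Cv 2 H).filter (Pool.Agent.Q284.FDQ.PQ (T + 1))).card : ℝ) := by
    intro T
    obtain ⟨c, hc, H0, h⟩ := Pool.Agent.Q284.FDQ.curvesPQ (T + 1)
    refine ⟨c, hc, H0, fun H hH => (h H hH).trans
      (Nat.cast_le.2 (card_le_card fun k hk => ?_))⟩
    rw [mem_filter] at hk ⊢
    exact hk
  have hfin : ∀ I : ℤ × ℤ → ℕ → Prop, I = HeightLe ∨ I = DiscLe → ∀ Z : ℕ, (Fam I Z).Finite := by
    rintro I (rfl | rfl) Z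
    · rw [FamH_eq]
      exact finite_toSet _
    · rw [FamD_eq]
      exact finite_toSet _
  intro I hI
  refine ⟨hfin I hI, ?_, fun T => ?_⟩
  · rcases hI with rfl | rfl
    · exact tendstoH
    · exact tendstoD
  · rcases hI with rfl | rfl
    · obtain ⟨c, hc, H0, h⟩ := h0 T
      refine ⟨c, hc, ?_⟩
      filter_upwards [eventually_ge_atTop H0, tendstoH.eventually_ge_atTop 1] with H hH hH1
      unfold proportion
      rw [le_div_iff₀ (by exact_mod_cast hH1)]
      have e1 : (Fam HeightLe H).ncard = (Pool.Agent.W307.RT.Cv 2 H).card := by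
        rw [FamH_eq, Set.ncard_coe_finset]
      rw [e1]
      refine (h H hH).trans (Nat.cast_le.2 ?_)
      rw [← Set.ncard_coe_finset]
      refine Set.ncard_le_ncard (fun k hk => ?_) (Set.Finite.inter_of_left
        (hfin _ (Or.inl rfl) _) _)
      rw [mem_coe, mem_filter] at hk
      refine ⟨?_, mem_of hk.2⟩
      rw [FamH_eq, mem_coe]
      exact hk.1
    · obtain ⟨c, hc, H0, h⟩ := Pool.Agent.Y667.RP.disc_of_height
        (Pool.Agent.Q284.FDQ.PQ (T + 1)) (h0 T)
      refine ⟨c, hc, ?_⟩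
      filter_upwards [eventually_ge_atTop H0, tendstoD.eventually_ge_atTop 1] with H hH hH1
      unfold proportion
      rw [le_div_iff₀ (by exact_mod_cast hH1)]
      have e1 : (Fam DiscLe H).ncard = (Pool.Agent.TH344.DS.Dv H).card := by
        rw [FamD_eq, Set.ncard_coe_finset]
      rw [e1]
      refine (h H hH).trans (Nat.cast_le.2 ?_)
      rw [← Set.ncard_coe_finset]
      refine Set.ncard_le_ncard (fun k hk => ?_) (Set.Finite.inter_of_left
        (hfin _ (Or.inr rfl) _) _)
      rw [mem_coe, mem_filter] at hk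
      refine ⟨?_, mem_of hk.2⟩
      rw [FamD_eq, mem_coe]
      exact hk.1

end Pool.Agent.Results.MP_1ad228_nt.LocalZeroCyclesTwoCoverings
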